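import Pool.Agent.H.MP_a8e783_an.Main

namespace Pool.Agent.Results.MP_a8e783_an.DualBigger

open Metric

/-- numerical radius -/
noncomputable def numRad {X : Type} [NormedAddCommGroup X] [NormedSpace ℝ X]
    (T : X →L[ℝ] X) : ℝ :=
  sSup {r | ∃ (x : X) (f : X →L[ℝ] ℝ), ‖x‖ = 1 ∧ ‖f‖ = 1 ∧ f x = 1 ∧ r = |f (T x)|}

/-- the constants whose maximum is the second numerical index -/
def K (X : Type) [NormedAddCommGroup X] [NormedSpace ℝ X] : Set ℝ :=
  {k | 0 ≤ k ∧ ∀ T : X →L[ℝ] X, k * infDist T {S : X →L[ℝ] X | numRad S = 0} ≤ numRad T}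

theorem result : ∃ (X : Type) (_ : NormedAddCommGroup X) (_ : NormedSpace ℝ X)
    (_ : CompleteSpace X), ∃ a b : ℝ,
      IsGreatest (K X) a ∧ IsGreatest (K (X →L[ℝ] ℝ)) b ∧ a < b :=
  ⟨Pool.Agent.H.MP_a8e783_an.X, inferInstance, inferInstance, inferInstance,
    Pool.Agent.H.MP_a8e783_an.main⟩

end Pool.Agent.Results.MP_a8e783_an.DualBigger
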